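import Pool.Agent.U59.ARC.D

/-!
# The number of normal rational curves through an `n`-arc of `PG(k-1, q)`

Let `q > k ≥ 2` and let `n ≤ q` be such that every `n`-arc of `PG(k-1, q)` lies on a normal rational
curve (these are the `n` of Q1; `k`, `k + 1` and `k + 2` are among them, and if `n ≥ k + 3` is one of
them, then so is `n + 1`). The number of the normal rational curves which contain a given `n`-arc
(the question Q2) is

* `(q - 1) ^ (k - 1) (q - 2)! / (q - k + 1)!` for `n = k`,
* `(q - 2)! / (q - k)! = (q - 2) (q - 3) ⋯ (q - k + 1)` for `n = k + 1`,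
* `1` for `n ≥ k + 2`.

The proof. Every `k + 1` points of an arc are the unit points `e_1, ..., e_k` and `(1, ..., 1)` for
suitable coordinates. The normal rational curves through these are the curves
`t ↦ (∏_{j ≠ i} (t - a_j))_i`, where `a_1, ..., a_k` are distinct elements of the field (the parameter
is changed such that `(1, ..., 1)` is the point at infinity; then the coordinates are given by monic
polynomials of degree `k - 1` with `k - 1` known zeros); two such curves with one more common point
have parameters which differ by an affine map, and are equal. Hence the number for `n = k + 1` is the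
number of injective sequences `0, 1, a_3, ..., a_k`. For `n = k` the pairs (curve, further point of it)
are counted twice.
-/

set_option autoImplicit false

namespace Pool.Agent.Results.MP_8a9ebc_co.CurvesThroughAnArc

open scoped LinearAlgebra.Projectivization Nat
open Pool.Agent.U59

/-- The points of `PG(r, K)`: the one-dimensional subspaces of `K ^ (r + 1)`. The vector `P.rep` is a
coordinate vector of the point `P`. -/
abbrev PG (K : Type) [Field K] (r : ℕ) : Type := ℙ K (Fin (r + 1) → K)

/-- `N` is a normal rational curve of `PG(r, K)`: its points are those with the coordinate vectors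
`g (t ^ r, ..., t, 1)`, `t` in `K`, and `g (1, 0, ..., 0)`, for a linear automorphism `g`. -/
def IsNRC {K : Type} [Field K] {r : ℕ} (N : Set (PG K r)) : Prop :=
  ∃ g : (Fin (r + 1) → K) ≃ₗ[K] (Fin (r + 1) → K), ∀ P : PG K r, P ∈ N ↔
    ∃ c : K, c ≠ 0 ∧ ((∃ t : K, P.rep = c • g (fun i => t ^ (r - (i : ℕ)))) ∨
      P.rep = c • g (Pi.single 0 1))

/-- `A` is an `n`-arc of `PG(r, K)`: a set of `n` points of which at most `r` lie in any
hyperplane `f = 0`. -/
def IsArc {K : Type} [Field K] {r : ℕ} (n : ℕ) (A : Finset (PG K r)) : Prop :=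
  A.card = n ∧
    ∀ f : (Fin (r + 1) → K) →ₗ[K] K, f ≠ 0 → {P : PG K r | P ∈ A ∧ f P.rep = 0}.ncard ≤ r

/-- the number of the normal rational curves which contain `A` -/
noncomputable def curvesThrough {K : Type} [Field K] {r : ℕ} (A : Finset (PG K r)) : ℕ :=
  {N : Set (PG K r) | IsNRC N ∧ ∀ P ∈ A, P ∈ N}.ncard

/-- every `n`-arc of `PG(r, K)` is contained in a normal rational curve -/
def AllRational (K : Type) [Field K] (r n : ℕ) : Prop :=
  ∀ A : Finset (PG K r), IsArc n A → ∃ N : Set (PG K r), IsNRC N ∧ ∀ P ∈ A, P ∈ N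

/-- Let `K` be a field with `q` elements, `k = r + 1 ≥ 2` and `q > k`. If `k ≤ n ≤ q` and every `n`-arc
of `PG(r, K)` is contained in a normal rational curve, then every `n`-arc `A` is contained in exactly
`(q-1)^(k-1) (q-2)! / (q-k+1)!` of them if `n = k`, in `(q-2)! / (q-k)!` if `n = k + 1`, in one if
`n ≥ k + 2`. The numbers `k`, `k + 1` and `k + 2` are such `n`; if `n ≥ k + 3` is one, so is `n + 1`. -/
theorem result (K : Type) [Field K] [Fintype K] (r : ℕ) (hr : 1 ≤ r)
    (hq : r + 1 < Fintype.card K) :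
    (∀ n : ℕ, r + 1 ≤ n → n ≤ Fintype.card K → AllRational K r n →
      ∀ A : Finset (PG K r), IsArc n A →
        (n = r + 1 → curvesThrough A * (Fintype.card K - r)! =
          (Fintype.card K - 1) ^ r * (Fintype.card K - 2)!) ∧
        (n = r + 2 → curvesThrough A * (Fintype.card K - (r + 1))! = (Fintype.card K - 2)!) ∧
        (r + 3 ≤ n → curvesThrough A = 1)) ∧
    AllRational K r (r + 1) ∧ AllRational K r (r + 2) ∧ AllRational K r (r + 3) ∧
    (∀ n : ℕ, r + 4 ≤ n → AllRational K r n → AllRational K r (n + 1)) := by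
  classical
  obtain ⟨m, rfl⟩ : ∃ m, r = m + 1 := ⟨r - 1, by omega⟩
  have hfact : (Fintype.card K - 2)! =
      (Fintype.card K - (m + 1 + 1))! * (Fintype.card K - 2).descFactorial m := by
    rw [← Nat.factorial_mul_descFactorial (n := Fintype.card K - 2) (k := m) (by omega)]
    congr 2
    omega
  have hfact2 : (Fintype.card K - (m + 1))! =
      (Fintype.card K - (m + 1)) * (Fintype.card K - (m + 1 + 1))! := by
    have : Fintype.card K - (m + 1) = Fintype.card K - (m + 1 + 1) + 1 := by omega
    rw [this, Nat.factorial_succ]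
  have hc1 : ∀ A : Finset (PG K (m + 1)), IsArc (m + 1 + 1) A →
      curvesThrough A * (Fintype.card K - (m + 1)) =
        (Fintype.card K - 1) ^ (m + 1) * (Fintype.card K - 2).descFactorial m :=
    fun A hA => ARC.count_simplex hq hA.2 hA.1
  have hc2 : ∀ A : Finset (PG K (m + 1)), IsArc (m + 1 + 2) A →
      curvesThrough A = (Fintype.card K - 2).descFactorial m :=
    fun A hA => ARC.count_frame hq hA.2 hA.1
  have hdpos : 0 < (Fintype.card K - 2).descFactorial m := by
    rw [Nat.pos_iff_ne_zero, Ne, Nat.descFactorial_eq_zero_iff_lt]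
    omega
  have hex : ∀ A : Finset (PG K (m + 1)), curvesThrough A ≠ 0 →
      ∃ N : Set (PG K (m + 1)), IsNRC N ∧ ∀ P ∈ A, P ∈ N := fun A hA =>
    Set.nonempty_of_ncard_ne_zero hA
  refine ⟨fun n _ _ hall A hA => ⟨?_, ?_, ?_⟩, fun A hA => hex A fun h0 => ?_,
    fun A hA => hex A ?_, fun A hA => ?_, fun n hn hall A hA => ?_⟩
  · rintro rfl
    rw [hfact2, ← mul_assoc, hc1 A hA, hfact]
    ring
  · rintro rfl
    rw [hc2 A hA, hfact]
    ring
  · intro h3
    obtain ⟨N, hN⟩ := hall A hA
    refine Set.ncard_eq_one.2 ⟨N, Set.eq_singleton_iff_unique_mem.2 ⟨hN, fun M hM => ?_⟩⟩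
    exact ARC.unique_through hr (by omega) hA.2 (by rw [hA.1]; exact h3) hM hN
  · have h1 := hc1 A hA
    rw [h0, zero_mul] at h1
    have h2 : 0 < (Fintype.card K - 1) ^ (m + 1) := pow_pos (by omega) _
    exact (Nat.mul_pos h2 hdpos).ne h1
  · rw [hc2 A hA]
    exact hdpos.ne'
  · exact ARC.exists_through hr (by omega) hA.2 hA.1
  · obtain ⟨P, hP⟩ : A.Nonempty := by
      rw [← Finset.card_pos, hA.1]
      omega
    obtain ⟨Q, hQ⟩ : (A.erase P).Nonempty := by
      rw [← Finset.card_pos, Finset.card_erase_of_mem hP, hA.1]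
      omega
    have hQA := (Finset.mem_erase.1 hQ).2
    have hPQ := (Finset.mem_erase.1 hQ).1
    obtain ⟨N, hN, hNA⟩ := hall (A.erase P)
      ⟨by rw [Finset.card_erase_of_mem hP, hA.1]; rfl, ARC.IsArc.subset hA.2 (A.erase_subset P)⟩
    obtain ⟨M, hM, hMA⟩ := hall (A.erase Q)
      ⟨by rw [Finset.card_erase_of_mem hQA, hA.1]; rfl, ARC.IsArc.subset hA.2 (A.erase_subset Q)⟩
    have hB : ARC.IsArc ((A.erase P).erase Q) :=
      ARC.IsArc.subset hA.2 ((Finset.erase_subset _ _).trans (Finset.erase_subset _ _))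
    have hBc : m + 1 + 3 ≤ ((A.erase P).erase Q).card := by
      rw [Finset.card_erase_of_mem hQ, Finset.card_erase_of_mem hP, hA.1]
      omega
    have hNM : N = M := by
      refine ARC.unique_through hr (by omega) hB hBc ⟨hN, fun R hR => ?_⟩ ⟨hM, fun R hR => ?_⟩
      · exact hNA R (Finset.mem_of_mem_erase hR)
      · refine hMA R (Finset.mem_erase.2 ⟨(Finset.mem_erase.1 hR).1, ?_⟩)
        exact Finset.mem_of_mem_erase (Finset.mem_of_mem_erase hR)
    refine ⟨N, hN, fun R hR => ?_⟩
    by_cases hRP : R = P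
    · rw [hNM, hRP]
      exact hMA P (Finset.mem_erase.2 ⟨hPQ.symm, hP⟩)
    · exact hNA R (Finset.mem_erase.2 ⟨hRP, hR⟩)

end Pool.Agent.Results.MP_8a9ebc_co.CurvesThroughAnArc
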